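import Pool.Agent.Run7.h363.HD.H

/-!
# Linear forms with positive coefficients: the Hausdorff dimension of `E(w)` is `1 + 3 / (w + 1)`

For `w > 2`, `E(w)` is the set of the points `(ξ, η)` of the plane for which there is a `c > 0` such that
`|p ξ + q η + r| < c max(p, q)^(-w)` for infinitely many integer triples `(p, q, r)` with `p > 0` and
`q > 0`. We show that its Hausdorff dimension is `1 + 3 / (w + 1)` for every real `w > 2`: the same
value as without the condition on the signs. More generally, the dimension is `1 + 3 / (w + 1)` if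
`(p, q)` is restricted to an arbitrary nonempty open cone `C` of the plane (an arbitrarily small sector).

Proof. Let `W(w)` be the set without restriction on `(p, q) ≠ (0, 0)`.

(1) `W(w)` is the union of the preimages of `E(w)` under four linear bijections (`W_sub`): the identity,
`(x, y) ↦ (x, -y)`, `(x, y) ↦ (x - y, y)` and `(x, y) ↦ (x, y - x)`; the last two take care of the triples
with `q = 0` and `p = 0`, since `p x = p (x - y) + p y`. So `W(w)` and `E(w)` have the same dimension.

(2) A cone `C` contains the cone of the combinations `p a + q b`, `p, q > 0`, of two linearly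
independent integer vectors `a, b`. So the preimage of `E(w)` under `x ↦ (a · x, b · x)` is contained in
the set for `C`, which is contained in `W(w)`.

(3) The starting module `Pool.Agent.H438R2` (of `MP_d8850a_nt/IntermediateDim`) has the dimension of the
set of the points with intermediate exponent `ω_(n,d)` at least `w`; for `n = 2`, `d = 1` it is
`1 + 3 / (w + 1)`. Its exponent is defined with the heights and the projective distances of rational planes
of `ℝ^3`; we compare it with the linear forms: `{ω_(2,1) ≥ w'} ⊂ W(w)` for `w' > w` (`omega_sub_W`), and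
`E(w)` is contained in the union of `{ω_(2,1) ≥ w}` and the rational lines (`E_sub`).
-/

set_option autoImplicit false

namespace Pool.Agent.Results.MP_18f540_nt.ExactDimension

/-- The set `E(w)` of the problem: there is a `c > 0` such that `|p x_0 + q x_1 + r| < c max(p, q)^(-w)`
for infinitely many integer triples `(p, q, r)` with `p > 0` and `q > 0`. -/
def E (w : ℝ) : Set (EuclideanSpace ℝ (Fin 2)) :=
  {x | ∃ c : ℝ, 0 < c ∧ {t : ℤ × ℤ × ℤ | 0 < t.1 ∧ 0 < t.2.1 ∧
    |(t.1 : ℝ) * x 0 + (t.2.1 : ℝ) * x 1 + (t.2.2 : ℝ)| <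
      c * (max (t.1 : ℝ) (t.2.1 : ℝ)) ^ (-w)}.Infinite}

/-- The set `E(w)` with the condition `(p, q) ∈ C` instead of `p > 0` and `q > 0`, and
`max(|p|, |q|)` instead of `max(p, q)`. -/
def ECone (C : Set (ℝ × ℝ)) (w : ℝ) : Set (EuclideanSpace ℝ (Fin 2)) :=
  {x | ∃ c : ℝ, 0 < c ∧ {t : ℤ × ℤ × ℤ | (((t.1 : ℝ), (t.2.1 : ℝ)) : ℝ × ℝ) ∈ C ∧
    |(t.1 : ℝ) * x 0 + (t.2.1 : ℝ) * x 1 + (t.2.2 : ℝ)| <
      c * (max |(t.1 : ℝ)| |(t.2.1 : ℝ)|) ^ (-w)}.Infinite}

/-- **The Hausdorff dimension of `E(w)`.** (1) `dim_H E(w) = 1 + 3 / (w + 1)` for every real `w > 2`.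
(2) The same holds if `(p, q)` is restricted to any nonempty open cone `C` instead of the cone
`p > 0`, `q > 0`. -/
theorem result :
    (∀ w : ℝ, 2 < w → dimH (E w) = ENNReal.ofReal (1 + 3 / (w + 1))) ∧
    ∀ C : Set (ℝ × ℝ), IsOpen C → C.Nonempty → (∀ s : ℝ, 0 < s → ∀ u ∈ C, s • u ∈ C) →
      ∀ w : ℝ, 2 < w → dimH (ECone C w) = ENNReal.ofReal (1 + 3 / (w + 1)) := by
  constructor
  · intro w hw
    rw [← Run7.h363.HD.dim_E w hw]
    exact ContinuousLinearEquiv.dimH_preimage (EuclideanSpace.equiv (Fin 2) ℝ) (Run7.h363.HD.E w)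
  · intro C ho hne hcone w hw
    rw [← Run7.h363.HD.dim_ES C ho hne hcone w hw]
    exact ContinuousLinearEquiv.dimH_preimage (EuclideanSpace.equiv (Fin 2) ℝ)
      (Run7.h363.HD.ES C w)

end Pool.Agent.Results.MP_18f540_nt.ExactDimension
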